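import Pool.Agent.Helper70.Isg.Goals2

/-!
# The image of the inputs is the limit of the plus states (MP_600500_pr, packet LIM)
-/

open MeasureTheory Filter Topology

noncomputable section

namespace Pool.Agent.Helper50.Isg

open Pool.Agent.Helper70.Isg

theorem lam_nonneg (k : ℕ) : 0 ≤ lam k := by unfold lam; positivity

theorem prb_self {d : ℕ} (l : Site d → ℕ) (v : Site d) : prb l v v = false := by
  unfold prb
  rw [decide_eq_false_iff_not]
  rintro (h | ⟨-, h⟩)
  · exact lt_irrefl _ h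
  · exact lt_irrefl _ h

/-- The hypothesis of the sampling theorem holds for every configuration. -/
theorem hyp_samp (hSAND : S_SAND) {d : ℕ} {β : ℝ} {K : ℕ} (hβ : 0 ≤ β)
    (hm : ∀ i : ℕ, mag β (ball (0 : Site d) (K * (i + 1))) 0 ≤ lam i) (Λ : Finset (Site d))
    (b : Cfg d) (l : Site d → ℕ) (v : Site d) (i : ℕ) :
    lfin β K Λ l v b i ≤ exf β Λ (fun w => prb l w v) v b ∧
      exf β Λ (fun w => prb l w v) v b ≤ lfin β K Λ l v b i + lam i := by
  unfold lfin
  by_cases h : ball v (K * (i + 1)) ⊆ Λ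
  · rw [if_pos h]
    obtain ⟨h1, h2⟩ := hSAND d β Λ (fun w => prb l w v) v (K * (i + 1)) b hβ (prb_self l v) h
    exact ⟨h1, h2.trans (by have := hm i; linarith)⟩
  · rw [if_neg h]
    exact ⟨le_rfl, by have := lam_nonneg i; linarith⟩

/-- A finite partition whose measures add up to one. -/
theorem partition_measure {Ω ι : Type*} [Fintype ι] [MeasurableSpace Ω]
    (μ : Measure Ω) [IsProbabilityMeasure μ] (E : ι → Set Ω) (w : ι → ENNReal)
    (hE : ∀ i, μ (E i) = w i) (hcov : ∀ y, ∃ i, y ∈ E i) (hsum : ∑ i, w i = 1)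
    (I : Finset ι) : μ (⋃ i ∈ I, E i) = ∑ i ∈ I, w i := by
  classical
  apply le_antisymm
  · refine (measure_biUnion_finset_le I E).trans ?_
    exact le_of_eq (Finset.sum_congr rfl fun i _ => hE i)
  · have h1 : (1 : ENNReal) ≤ μ (⋃ i ∈ I, E i) + ∑ i ∈ Iᶜ, w i := by
      calc (1 : ENNReal) = μ Set.univ := measure_univ.symm
        _ ≤ μ ((⋃ i ∈ I, E i) ∪ ⋃ i ∈ Iᶜ, E i) := by
          refine measure_mono fun y _ => ?_
          obtain ⟨i, hi⟩ := hcov y
          by_cases hI : i ∈ I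
          · exact Or.inl (Set.mem_iUnion₂.2 ⟨i, hI, hi⟩)
          · exact Or.inr (Set.mem_iUnion₂.2 ⟨i, Finset.mem_compl.2 hI, hi⟩)
        _ ≤ μ (⋃ i ∈ I, E i) + μ (⋃ i ∈ Iᶜ, E i) := measure_union_le _ _
        _ ≤ μ (⋃ i ∈ I, E i) + ∑ i ∈ Iᶜ, w i := by
          gcongr
          refine (measure_biUnion_finset_le _ E).trans ?_
          exact le_of_eq (Finset.sum_congr rfl fun i _ => hE i)
    have h2 : ∑ i ∈ I, w i + ∑ i ∈ Iᶜ, w i = 1 := by
      rw [Finset.sum_add_sum_compl, hsum]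
    have h3 : ∑ i ∈ Iᶜ, w i ≠ ⊤ := by
      intro h
      rw [h] at h2
      simp at h2
    rw [← h2] at h1
    exact (ENNReal.add_le_add_iff_right h3).1 h1

theorem glue_restrict {d : ℕ} (Λ : Finset (Site d)) (X : Cfg d) (hX : ∀ v ∉ Λ, X v = true) :
    glue Λ (fun v => X v) allT = X := by
  funext v
  unfold glue allT
  by_cases h : v ∈ Λ
  · rw [dif_pos h]
  · rw [dif_neg h, hX v h]

theorem glue_out {d : ℕ} (Λ : Finset (Site d)) (τ : Λ → Bool) :
    ∀ v ∉ Λ, glue Λ τ allT v = true := by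
  intro v hv
  unfold glue allT
  rw [dif_neg hv]

/-- The law of the finite volume solutions. -/
theorem finite_law (hBASIC : S_BASIC) (hP2 : S_P2) (hSAND : S_SAND) (hSAMP : S_SAMP)
    {d : ℕ} {β : ℝ} {K L : ℕ} (hβ : 0 ≤ β) (hL : 0 < L)
    (hm : ∀ i : ℕ, mag β (ball (0 : Site d) (K * (i + 1))) 0 ≤ lam i) (Λ : Finset (Site d))
    (X : Inp d L → Cfg d) (hX1 : ∀ y, ∀ v ∉ Λ, X y v = true)
    (hX2 : ∀ y, ∀ v ∈ Λ, X y v = fbit β K Λ (lab y) v (y v).2 (X y))
    (hX3 : ∀ y (b : Cfg d), (∀ v ∉ Λ, b v = true) →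
      (∀ v ∈ Λ, b v = fbit β K Λ (lab y) v (y v).2 b) → X y = b) (S : Set (Cfg d)) :
    P2 d L {y | X y ∈ S} = ENNReal.ofReal (ev β Λ allT (S.indicator 1)) := by
  classical
  obtain ⟨-, -, -, -, -, -, -, hpf, -⟩ := hBASIC d
  obtain ⟨-, -, -, -, hprob, -⟩ := hP2 d L hL
  have hpf' := hpf β Λ allT
  have hw : ∀ τ : Λ → Bool, P2 d L {y | X y = glue Λ τ allT} =
      ENNReal.ofReal (wt β Λ (glue Λ τ allT) / pf β Λ allT) := by
    intro τ
    rw [← hSAMP d β K L Λ (glue Λ τ allT) hL (glue_out Λ τ)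
      (fun l v _ i => hyp_samp hSAND hβ hm Λ (glue Λ τ allT) l v i)]
    congr 1
    ext y
    constructor
    · intro h v hv
      have h' : X y = glue Λ τ allT := h
      rw [← h']
      exact (hX2 y v hv).symm
    · intro h
      exact hX3 y _ (glue_out Λ τ) fun v hv => (h v hv).symm
  have hwt0 : ∀ τ : Λ → Bool, 0 ≤ wt β Λ (glue Λ τ allT) / pf β Λ allT := fun τ =>
    div_nonneg (Real.exp_pos _).le hpf'.le
  have hsum : ∑ τ : Λ → Bool, ENNReal.ofReal (wt β Λ (glue Λ τ allT) / pf β Λ allT) = 1 := by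
    rw [← ENNReal.ofReal_sum_of_nonneg (fun τ _ => hwt0 τ), ← Finset.sum_div]
    have : ∑ τ : Λ → Bool, wt β Λ (glue Λ τ allT) = pf β Λ allT := rfl
    rw [this, div_self hpf'.ne', ENNReal.ofReal_one]
  have key := partition_measure (P2 d L) (fun τ : Λ → Bool => {y | X y = glue Λ τ allT}) _ hw
    (fun y => ⟨fun v => X y v, (glue_restrict Λ (X y) (hX1 y)).symm⟩) hsum
    (Finset.univ.filter fun τ => glue Λ τ allT ∈ S)
  have hset : {y | X y ∈ S} =
      ⋃ τ ∈ Finset.univ.filter (fun τ : Λ → Bool => glue Λ τ allT ∈ S),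
        {y | X y = glue Λ τ allT} := by
    ext y
    simp only [Set.mem_iUnion, Finset.mem_filter, Finset.mem_univ, true_and, exists_prop]
    constructor
    · intro h
      refine ⟨fun v => X y v, ?_, ?_⟩
      · rw [glue_restrict Λ (X y) (hX1 y)]; exact h
      · exact (glue_restrict Λ (X y) (hX1 y)).symm
    · rintro ⟨τ, h1, h2⟩
      have h2' : X y = glue Λ τ allT := h2
      change X y ∈ S
      rw [h2']
      exact h1
  rw [hset, key, ← ENNReal.ofReal_sum_of_nonneg (fun τ _ => hwt0 τ)]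
  congr 1
  unfold ev
  rw [Finset.sum_div, Finset.sum_filter]
  refine Finset.sum_congr rfl fun τ _ => ?_
  by_cases h : glue Λ τ allT ∈ S
  · rw [if_pos h, Set.indicator_of_mem h, Pi.one_apply, one_mul]
  · rw [if_neg h, Set.indicator_of_notMem h, zero_mul, zero_div]

theorem ev_nonneg (hBASIC : S_BASIC) {d : ℕ} (β : ℝ) (Λ : Finset (Site d)) (S : Set (Cfg d)) :
    0 ≤ ev β Λ allT (S.indicator 1) := by
  obtain ⟨-, -, -, -, -, -, -, hpf, -⟩ := hBASIC d
  unfold ev
  refine div_nonneg (Finset.sum_nonneg fun τ _ => mul_nonneg ?_ (Real.exp_pos _).le)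
    (hpf β Λ allT).le
  exact Set.indicator_nonneg (fun _ _ => zero_le_one) _

/-- PACKET LIM. -/
theorem s_lim (hBASIC : S_BASIC) (hP2 : S_P2) (hSAND : S_SAND) (hSAMP : S_SAMP) (hEXU : S_EXU)
    (hCOUP : S_COUP) (hMEAS : S_MEAS) : S_LIM := by
  intro d β K L C c hβ hL hK hc hm hgood F a
  obtain ⟨-, -, -, hball, htri, hneg, -, -, -⟩ := hBASIC d
  obtain ⟨-, -, -, -, hprob, -⟩ := hP2 d L hL
  obtain ⟨hmeas, -⟩ := hMEAS d β K L
  set S : Set (Cfg d) := {σ : Cfg d | ∀ v ∈ F, σ v = a v} with hS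
  have hSm : MeasurableSet S := by
    have : S = ⋂ v ∈ F, (fun σ : Cfg d => σ v) ⁻¹' {a v} := by
      ext σ
      simp only [hS, Set.mem_iInter]
      exact Iff.rfl
    rw [this]
    exact Finset.measurableSet_biInter _ fun v _ =>
      measurable_pi_apply v (measurableSet_singleton _)
  have hmap : ((P2 d L).map (phi2 β K)).real S = (P2 d L).real {y | phi2 β K y ∈ S} := by
    rw [measureReal_def, measureReal_def, Measure.map_apply hmeas hSm]
    rfl
  rw [hmap]
  -- the bound
  have hbound : ∀ R n : ℕ, (∀ v ∈ F, l1 v + R ≤ n) →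
      |ev β (ball 0 n) allT (S.indicator 1) - (P2 d L).real {y | phi2 β K y ∈ S}| ≤
        F.card * (max C 0 * Real.exp (-c * R)) := by
    intro R n hn
    set Λ : Finset (Site d) := ball 0 n with hΛ
    have hsub : ∀ v ∈ F, ball v R ⊆ Λ := by
      intro v hv u hu
      rw [hball] at hu
      rw [hΛ, hball, sub_zero]
      have h1 := htri (u - v) v
      rw [sub_add_cancel] at h1
      have := hn v hv
      omega
    choose X hX using fun y : Inp d L => hEXU d β K L Λ y
    have hX1 : ∀ y, ∀ v ∉ Λ, X y v = true := fun y => (hX y).1.1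
    have hX2 : ∀ y, ∀ v ∈ Λ, X y v = fbit β K Λ (lab y) v (y v).2 (X y) := fun y => (hX y).1.2
    have hX3 : ∀ y (b : Cfg d), (∀ v ∉ Λ, b v = true) →
        (∀ v ∈ Λ, b v = fbit β K Λ (lab y) v (y v).2 b) → X y = b := fun y b h1 h2 =>
      ((hX y).2 b ⟨h1, h2⟩).symm
    have hlaw := finite_law hBASIC hP2 hSAND hSAMP hβ hL hm Λ X hX1 hX2 hX3 S
    have hlawR : (P2 d L).real {y | X y ∈ S} = ev β Λ allT (S.indicator 1) := by
      rw [measureReal_def, hlaw, ENNReal.toReal_ofReal (ev_nonneg hBASIC β Λ S)]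
    set Bad : Set (Inp d L) := {y | ∃ v ∈ F, ¬ Good K y v R} with hBad
    have hcoup : ∀ y ∉ Bad, (X y ∈ S ↔ phi2 β K y ∈ S) := by
      intro y hy
      have hy' : ∀ v ∈ F, Good K y v R := by
        intro v hv
        by_contra h
        exact hy ⟨v, hv, h⟩
      have he : ∀ v ∈ F, X y v = phi2 β K y v := fun v hv =>
        hCOUP d β K L Λ y v R (X y) (hy' v hv) (hsub v hv) (hX2 y)
      simp only [hS]
      constructor
      · intro h v hv
        rw [← he v hv]; exact h v hv
      · intro h v hv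
        rw [he v hv]; exact h v hv
    have hBadm : (P2 d L).real Bad ≤ F.card * (max C 0 * Real.exp (-c * R)) := by
      have h1 : P2 d L Bad ≤ ∑ v ∈ F, P2 d L {y | ¬ Good K y v R} := by
        have : Bad = ⋃ v ∈ F, {y | ¬ Good K y v R} := by
          ext y
          simp only [hBad, Set.mem_iUnion, exists_prop]
          exact Iff.rfl
        rw [this]
        exact measure_biUnion_finset_le _ _
      have h2 : P2 d L Bad ≤ ENNReal.ofReal (F.card * (max C 0 * Real.exp (-c * R))) := by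
        refine h1.trans ?_
        calc ∑ v ∈ F, P2 d L {y | ¬ Good K y v R}
            ≤ ∑ v ∈ F, ENNReal.ofReal (max C 0 * Real.exp (-c * R)) := by
              refine Finset.sum_le_sum fun v _ => (hgood v R).trans ?_
              exact ENNReal.ofReal_le_ofReal
                (mul_le_mul_of_nonneg_right (le_max_left _ _) (Real.exp_pos _).le)
          _ = ENNReal.ofReal (F.card * (max C 0 * Real.exp (-c * R))) := by
              rw [Finset.sum_const, nsmul_eq_mul, ENNReal.ofReal_mul (Nat.cast_nonneg _),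
                ENNReal.ofReal_natCast]
      rw [measureReal_def]
      refine ENNReal.toReal_le_of_le_ofReal ?_ h2
      have := Real.exp_pos (-c * R)
      positivity
    have m1 : (P2 d L).real {y | X y ∈ S} ≤
        (P2 d L).real {y | phi2 β K y ∈ S} + (P2 d L).real Bad := by
      refine (measureReal_mono (fun y hy => ?_)).trans (measureReal_union_le _ _)
      by_cases h : y ∈ Bad
      · exact Or.inr h
      · exact Or.inl ((hcoup y h).1 hy)
    have m2 : (P2 d L).real {y | phi2 β K y ∈ S} ≤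
        (P2 d L).real {y | X y ∈ S} + (P2 d L).real Bad := by
      refine (measureReal_mono (fun y hy => ?_)).trans (measureReal_union_le _ _)
      by_cases h : y ∈ Bad
      · exact Or.inr h
      · exact Or.inl ((hcoup y h).2 hy)
    rw [← hlawR, abs_le]
    constructor <;> linarith
  rw [Metric.tendsto_atTop]
  intro ε hε
  have hlim : Tendsto (fun R : ℕ => (F.card : ℝ) * (max C 0 * Real.exp (-c * R))) atTop (𝓝 0) := by
    have h1 : Tendsto (fun R : ℕ => Real.exp (-c * R)) atTop (𝓝 0) := by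
      refine Real.tendsto_exp_atBot.comp ?_
      exact (tendsto_natCast_atTop_atTop (R := ℝ)).const_mul_atTop_of_neg (by linarith)
    have := (h1.const_mul (max C 0)).const_mul (F.card : ℝ)
    simpa using this
  obtain ⟨R, hR⟩ := (hlim.eventually (gt_mem_nhds hε)).exists
  refine ⟨F.sup l1 + R, fun n hn => ?_⟩
  rw [Real.dist_eq]
  refine lt_of_le_of_lt (hbound R n fun v hv => ?_) hR
  have := Finset.le_sup (f := l1) hv
  omega

end Pool.Agent.Helper50.Isg
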